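import Pool.Agent.X250.Sph.InfDeg
import Pool.Agent.X196.HarmOn

/-!
# Noncompact reflection manifolds: one degree and the links suffice

Let `L` be a locally finite flag triangulation of an `(n-1)`-manifold, compact or not, with one-skeleton `G`, for example
of `ℝ^(n-1)`, and let `N` be a contractible `n`-manifold with boundary `L`.  Reflecting `N` one gets a contractible
`n`-manifold on which the right-angled Coxeter group `W G` (of infinite rank, if `L` is infinite) acts; its torsion-free
subgroups `π` of finite index and its commutator subgroup are fundamental groups of aspherical `n`-manifolds `M`.  The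
group `W G` is the directed union of the special subgroups `W_A`, `A` a finite set of vertices, so by Lück's theorems
`b_i(M) = 0` if the reduced `ℓ²`-homology of the Davis complexes of all `W_A` vanishes in the degree `i`.

Let `n = 2 k` or `n = 2 k - 1`.  We show for every locally finite graph `G` that the vanishing for all finite `A` in all
degrees `≥ k` is equivalent to the vanishing in the single degree `k` for the links of the nonempty faces (which are finite
complexes) and for arbitrarily large finite sets `B` of vertices; and that the condition on the links suffices in all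
degrees `> k`.  So if `n = 2 k`, then the statement of Q1 holds for all these `M` if the links of the nonempty faces have
no `ℓ²`-homology in the one degree `k`, with no condition on the infinite complex as a whole.
-/

set_option autoImplicit false

namespace Pool.Agent.Results.MP_4f4d9f_gt.InfiniteRankOneDegree

open Pool.Agent.W907.SG Pool.Agent.W907.SM Pool.Agent.TH652.Above Pool.Agent.Y132.SI Pool.Agent.X250.Sph
open Pool.Agent.X196.HarmOn

/-- Let `G` be a graph on a possibly infinite linearly ordered vertex set, such that every vertex has finitely many
neighbours, and let `1 ≤ k`.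
(1) The reduced `ℓ²`-homology of the Davis complex of `W_A` vanishes in all degrees `≥ k` for all finite sets `A` of
vertices if and only if it vanishes in the degree `k` for the links of all nonempty cliques, and for all `A` there is a
finite set `B` of vertices which contains `A` such that it vanishes for `W_B` in the degree `k`.
Suppose that it vanishes in the degree `k` for the links of all nonempty cliques.
(2) If `A ⊆ B` are finite sets of vertices and it vanishes for `W_B` in the degree `k` then it vanishes for `W_A` in the
degree `k`.
(3) Let `A` be a finite set of vertices, and `i > k`.  Then it vanishes for `W_A` in the degree `i`, and there is no nonzero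
`ℓ²` harmonic `i`-chain on the `W G`-invariant subcomplex of the cubes `w W_T`, `T ⊆ A`, of the Davis complex of the group
`W G` of possibly infinite rank.  Moreover, for each `ε > 0` there is a finite set `E` of nontrivial elements of `W_A` such
that for every subgroup `H` of finite index of `W_A` which contains no conjugate of an element of `E`, all subsets `B` of
`A` and all `i > k`, the `i`-th real Betti number of the quotient by `H` of the union of the translates of the Davis
complex of `W_B` is at most `ε [W_A : H]`. -/
theorem result : ∀ (k : ℕ) (V : Type) [LinearOrder V] (G : SimpleGraph V), 1 ≤ k →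
    (∀ v : V, (G.neighborSet v).Finite) →
    ((∀ (A : Finset V) (i : ℕ), k ≤ i → L2Van (G.induce (A : Set V)) i) ↔
      (∀ T : Finset V, G.IsClique (T : Set V) → T.Nonempty → LV (G.induce (lk G T)) k) ∧
      ∀ A : Finset V, ∃ B : Finset V, A ⊆ B ∧ L2Van (G.induce (B : Set V)) k) ∧
    ((∀ T : Finset V, G.IsClique (T : Set V) → T.Nonempty → LV (G.induce (lk G T)) k) →
      (∀ A B : Finset V, A ⊆ B → L2Van (G.induce (B : Set V)) k → L2Van (G.induce (A : Set V)) k) ∧
      ∀ A : Finset V, (∀ i : ℕ, k < i → L2Van (G.induce (A : Set V)) i) ∧
        (∀ i : ℕ, k < i → ∀ c : W G → Finset V → ℝ, IsHarmOn G A i c → c = 0) ∧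
        ∀ ε : ℝ, 0 < ε → ∃ E : Finset (W (G.induce (A : Set V))), (1 : W (G.induce (A : Set V))) ∉ E ∧
          ∀ H : Subgroup (W (G.induce (A : Set V))), H.FiniteIndex → (∀ g ∈ E, ∀ x, x * g * x⁻¹ ∉ H) →
            ∀ (B : Set ↥(A : Set V)) (i : ℕ), k < i →
              (Module.finrank ℝ (HInvOn (G.induce (A : Set V)) B H i) : ℝ) ≤ ε * H.index) := by
  classical
  intro k V _ G hk hloc
  refine ⟨⟨fun h => ⟨fun T hT hne => ?_, fun A => ⟨A, le_rfl, h A k le_rfl⟩⟩, ?_⟩, fun h => ⟨fun A B hAB hB =>
    inf_at hloc h hAB hB, fun A => ?_⟩⟩
  · obtain ⟨v, hv⟩ := hne
    have hfin : (lk G T).Finite := (hloc v).subset fun x hx => (G.mem_neighborSet v x).2 (hx v hv).symm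
    have h1 := h hfin.toFinset k le_rfl
    exact lv_set hfin.coe_toFinset.symm (LV_of h1)
  · rintro ⟨h, h'⟩ A i hi
    rcases hi.eq_or_lt with rfl | hi
    · obtain ⟨B, hAB, hB⟩ := h' A
      exact inf_at hloc h hAB hB
    · exact (lv_univ _ i).1 (inf_above hloc h A Set.univ i hi) _ _
  · have h1 : ∀ i : ℕ, k < i → L2Van (G.induce (A : Set V)) i := fun i hi =>
      (lv_univ _ i).1 (inf_above hloc h A Set.univ i hi) _ _
    exact ⟨h1, fun i hi c hc => zero_of G A i (h1 i hi) c hc, fun ε hε =>
      growth_all (f := fun i => k < i) (fun B i hi => inf_above hloc h A B i hi) ε hε⟩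

end Pool.Agent.Results.MP_4f4d9f_gt.InfiniteRankOneDegree
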