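import Pool.Agent.X196.HarmOn

/-!
# `ℓ²`-homology above the middle dimension for reflection manifolds of infinite type

Let `G` be a graph on an arbitrary (possibly infinite) vertex set `V` in the class `AMI n`: this class contains the
order complexes of the finite posets of length `n` which are Gorenstein* over `F_2` and is closed under full
subcomplexes, edge subdivisions, joins, the passage from `n` to `n + 1`, gluing along full subcomplexes of the class
`n - 2`, a local condition in the even dimensions, isomorphisms, and the passage to infinite graphs all of whose finite
full subgraphs belong to the class. For example it contains the barycentric subdivision of every locally finite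
triangulation of an open subset of the `(n-1)`-sphere.

If `M` is a noncompact aspherical `n`-manifold whose fundamental group is the commutator subgroup `π` of the
right-angled Coxeter group `W G`, then `π` is the directed union of the commutator subgroups of the special subgroups
`W (G.induce A)`, `A` finite.
-/

set_option autoImplicit false

namespace Pool.Agent.Results.MP_4f4d9f_gt.InfiniteRankReflectionManifolds

open Pool.Agent.W907.SG Pool.Agent.TH652.Above Pool.Agent.Y132.SI Pool.Agent.X196.HarmOn

/-- For a graph of the class `AMI n` on an arbitrary vertex set, a finite set `A` of vertices and `i > n / 2`: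
(1) there is no nonzero `ℓ²` harmonic `i`-chain on the `W G`-invariant subcomplex of the cubes `w W_T`, `T ⊆ A`, of the
Davis complex of the group `W G` of possibly infinite rank; (2) the reduced `ℓ²`-homology in degree `i` of the Davis
complex of the special subgroup of `A` is zero; (3) the `i`-th real Betti numbers of the subgroups of finite index of
this special subgroup grow sublinearly. -/
theorem result : ∀ (n : ℕ) (V : Type) [LinearOrder V] (G : SimpleGraph V), AMI n G → ∀ A : Finset V,
    (∀ i : ℕ, n < 2 * i → ∀ c : W G → Finset V → ℝ, IsHarmOn G A i c → c = 0) ∧
    (∀ i : ℕ, n < 2 * i → L2Van (G.induce (A : Set V)) i) ∧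
    ∀ ε : ℝ, 0 < ε → ∃ E : Finset (W (G.induce (A : Set V))), (1 : W (G.induce (A : Set V))) ∉ E ∧
      ∀ H : Subgroup (W (G.induce (A : Set V))), H.FiniteIndex → (∀ g ∈ E, ∀ x, x * g * x⁻¹ ∉ H) →
        ∀ i : ℕ, n < 2 * i → (Module.finrank ℝ (HInv (G.induce (A : Set V)) H i) : ℝ) ≤ ε * H.index := by
  intro n V _ G h A
  have h1 : ∀ i : ℕ, n < 2 * i → L2Van (G.induce (A : Set V)) i := fun i hi =>
    above_AMI h (A : Set V) A.finite_toSet i hi
  exact ⟨fun i hi c hc => zero_of G A i (h1 i hi) c hc, h1,
    fun ε hε => Pool.Agent.X196.GrowthI.growth_above' h1 ε hε⟩

end Pool.Agent.Results.MP_4f4d9f_gt.InfiniteRankReflectionManifolds
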