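import Pool.Agent.X250.Sph.InfSlope
import Pool.Agent.X196.HarmOn

/-!
# Slopes of the links for locally finite flag complexes

Let `L` be a locally finite flag complex whose geometric realization is an `(n-1)`-manifold without boundary, for
example a flag triangulation of the boundary of a contractible noncompact `n`-manifold.  Reflecting this manifold with
the right-angled Coxeter group `W` of `L` of infinite rank one gets a contractible `n`-manifold on which `W` acts
properly, but not cocompactly.  Q1 predicts that the `ℓ²`-Betti numbers of `W` (and of the special subgroups) vanish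
above the middle dimension `n / 2`.

We give a criterion of Morse theory: the vanishing in the degrees `> k` for all finite special subgroups follows if the
links of the nonempty faces have slopes (for example legal systems of Jankiewicz-Norin-Wise) whose descending links
have no reduced homology in the one degree `k - 1`.  For the links of dimension less than `k - 1`, for the
`(k-1)`-dimensional homology spheres and for the faces of faces with a good link (a class which contains the order
complexes of Gorenstein* posets) no slope is needed.  If moreover each finite set of vertices is contained in a finite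
set whose full subcomplex has such a slope, or is in the class, then the vanishing holds in the degree `k` too.
-/

set_option autoImplicit false

namespace Pool.Agent.Results.MP_4f4d9f_gt.InfiniteRankSlopes

open Pool.Agent.W907.SG Pool.Agent.W907.SM Pool.Agent.TH652.Above Pool.Agent.Y132.SI Pool.Agent.X250.Sph
open Pool.Agent.X196.HarmOn

/-- Let `G` be a graph on a possibly infinite linearly ordered vertex set, such that every vertex has finitely many
neighbours, and let `1 ≤ k`.  Suppose that for each nonempty clique `T` of `G` one of the following holds: the link of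
some subset `S` of `T` is in the class `AM (2 k - 1 + |T| - |S|)`; or the link of `T` contains no clique with `k`
vertices; or it is a real homology `(k-1)`-sphere; or it has a slope on a nonempty finite set such that the reduced
real homology of the descending links vanishes in the degree `k - 1`.  Let `A` be a finite set of vertices.
(1) For all `i > k` the reduced `ℓ²`-homology of the Davis complex of `W_A` vanishes in the degree `i`, and there is no
nonzero `ℓ²` harmonic `i`-chain on the `W G`-invariant subcomplex of the cubes `w W_T`, `T ⊆ A`, of the Davis complex of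
the group `W G` of possibly infinite rank.  For each `ε > 0` there is a finite set `E` of nontrivial elements of `W_A`
such that for every subgroup `H` of finite index of `W_A` which contains no conjugate of an element of `E`, all subsets
`B` of `A` and all `i > k`, the `i`-th real Betti number of the quotient by `H` of the union of the translates of the
Davis complex of `W_B` is at most `ε [W_A : H]`.
(2) If each finite set of vertices is contained in a finite set `B` such that the induced graph on `B` has such a slope
or is in the class `AM (2 k - 1)`, then the same holds for all `i ≥ k`. -/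
theorem result : ∀ (k : ℕ) (V : Type) [LinearOrder V] (G : SimpleGraph V), 1 ≤ k →
    (∀ v : V, (G.neighborSet v).Finite) →
    (∀ T : Finset V, G.IsClique (T : Set V) → T.Nonempty →
      (∃ S : Finset V, S ⊆ T ∧ AM (2 * k - 1 + (T.card - S.card)) (G.induce (lk G S))) ∨
      (∀ S : Finset V, G.IsClique (S : Set V) → (S : Set V) ⊆ lk G T → S.card < k) ∨
      ∀ _ : Fintype ↥(lk G T), HSph k (G.induce (lk G T)) ∨ HasSlope (G.induce (lk G T)) k) →
    (∀ A : Finset V, (∀ i : ℕ, k < i → L2Van (G.induce (A : Set V)) i) ∧
      (∀ i : ℕ, k < i → ∀ c : W G → Finset V → ℝ, IsHarmOn G A i c → c = 0) ∧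
      ∀ ε : ℝ, 0 < ε → ∃ E : Finset (W (G.induce (A : Set V))), (1 : W (G.induce (A : Set V))) ∉ E ∧
        ∀ H : Subgroup (W (G.induce (A : Set V))), H.FiniteIndex → (∀ g ∈ E, ∀ x, x * g * x⁻¹ ∉ H) →
          ∀ (B : Set ↥(A : Set V)) (i : ℕ), k < i →
            (Module.finrank ℝ (HInvOn (G.induce (A : Set V)) B H i) : ℝ) ≤ ε * H.index) ∧
    ((∀ A : Finset V, ∃ B : Finset V, A ⊆ B ∧
        (HasSlope (G.induce (B : Set V)) k ∨ AM (2 * k - 1) (G.induce (B : Set V)))) →
      ∀ A : Finset V, (∀ i : ℕ, k ≤ i → L2Van (G.induce (A : Set V)) i) ∧
        (∀ i : ℕ, k ≤ i → ∀ c : W G → Finset V → ℝ, IsHarmOn G A i c → c = 0) ∧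
        ∀ ε : ℝ, 0 < ε → ∃ E : Finset (W (G.induce (A : Set V))), (1 : W (G.induce (A : Set V))) ∉ E ∧
          ∀ H : Subgroup (W (G.induce (A : Set V))), H.FiniteIndex → (∀ g ∈ E, ∀ x, x * g * x⁻¹ ∉ H) →
            ∀ (B : Set ↥(A : Set V)) (i : ℕ), k ≤ i →
              (Module.finrank ℝ (HInvOn (G.induce (A : Set V)) B H i) : ℝ) ≤ ε * H.index) := by
  classical
  intro k V _ G hk hloc hT
  have h : ∀ T : Finset V, G.IsClique (T : Set V) → T.Nonempty → LV (G.induce (lk G T)) k :=
    fun T h1 h2 => inf_crit hloc h1 h2 (hT T h1 h2) hk
  have key : ∀ f : ℕ → Prop, (∀ (A : Finset V) (B : Set ↥(A : Set V)) (i : ℕ), f i →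
      LV ((G.induce (A : Set V)).induce B) i) → ∀ A : Finset V, (∀ i : ℕ, f i → L2Van (G.induce (A : Set V)) i) ∧
        (∀ i : ℕ, f i → ∀ c : W G → Finset V → ℝ, IsHarmOn G A i c → c = 0) ∧
        ∀ ε : ℝ, 0 < ε → ∃ E : Finset (W (G.induce (A : Set V))), (1 : W (G.induce (A : Set V))) ∉ E ∧
          ∀ H : Subgroup (W (G.induce (A : Set V))), H.FiniteIndex → (∀ g ∈ E, ∀ x, x * g * x⁻¹ ∉ H) →
            ∀ (B : Set ↥(A : Set V)) (i : ℕ), f i →
              (Module.finrank ℝ (HInvOn (G.induce (A : Set V)) B H i) : ℝ) ≤ ε * H.index := by
    intro f hf A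
    have h1 : ∀ i : ℕ, f i → L2Van (G.induce (A : Set V)) i := fun i hi =>
      (lv_univ _ i).1 (hf A Set.univ i hi) _ _
    exact ⟨h1, fun i hi c hc => zero_of G A i (h1 i hi) c hc, fun ε hε =>
      growth_all (f := f) (fun B i hi => hf A B i hi) ε hε⟩
  refine ⟨key _ fun A B i hi => inf_above hloc h A B i hi, fun h' => key _ fun A B i hi => ?_⟩
  rcases hi.eq_or_lt with rfl | hi
  · obtain ⟨C, hC, h2⟩ := h' A
    have h3 : L2Van (G.induce (C : Set V)) k := by
      rcases h2 with h2 | h2
      · exact h2.l2van
      · exact above_AM h2 k (by omega)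
    have h4 := inf_at hloc h ((Finset.filter_subset (fun v => ∃ hv : v ∈ (A : Set V), (⟨v, hv⟩ : ↥(A : Set V)) ∈ B)
      A).trans hC) h3
    rw [lv_sub]
    refine lv_set ?_ (LV_of h4)
    ext x
    constructor
    · rintro ⟨y, hy, rfl⟩
      exact Finset.mem_coe.2 (Finset.mem_filter.2 ⟨y.2, y.2, hy⟩)
    · intro hx
      obtain ⟨h5, h6, h7⟩ := Finset.mem_filter.1 (Finset.mem_coe.1 hx)
      exact ⟨⟨x, h6⟩, h7, rfl⟩
  · exact inf_above hloc h A B i hi

end Pool.Agent.Results.MP_4f4d9f_gt.InfiniteRankSlopes
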